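import Mathlib

/-! # Q1 of MP_82795f_nt

`K c` is the set of positive integers `k` such that `n ∣ C(n, k - c n)` for every integer `n`
with `k / (c + 1) ≤ n ≤ k / c`; `S` is the set of numbers `2 q` with `q > 3` a Fermat prime.
We show that `S ⊆ K c` for infinitely many `c ≥ 2`, namely for every `c = 2 ^ r - 1`, `r ≥ 3`. -/

namespace Pool.Agent.Results.MP_82795f_nt.InfinitelyManyC

/-- The set `K_c`: positive integers `k` such that `n` divides the binomial coefficient
`C(n, k - c n)` for every integer `n` with `k / (c + 1) ≤ n ≤ k / c`. -/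
def K (c : ℕ) : Set ℕ :=
  {k | 0 < k ∧ ∀ n : ℕ, (k : ℚ) / ((c : ℚ) + 1) ≤ (n : ℚ) → (n : ℚ) ≤ (k : ℚ) / (c : ℚ) →
    n ∣ n.choose (k - c * n)}

/-- The set `S` of all `2 q` with `q > 3` a Fermat prime, i.e. a prime `q = 2 ^ (2 ^ m) + 1`. -/
def S : Set ℕ :=
  {k | ∃ m q : ℕ, q = 2 ^ (2 ^ m) + 1 ∧ q.Prime ∧ 3 < q ∧ k = 2 * q}

/-- Lucas modulo two, one digit. -/
lemma lucas_two (a b : ℕ) :
    a.choose b % 2 = ((a % 2).choose (b % 2) * (a / 2).choose (b / 2)) % 2 :=
  Choose.choose_modEq_choose_mod_mul_choose_div_nat (n := a) (k := b) (p := 2)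

/-- Block Lucas modulo two: an odd binomial coefficient splits into odd blocks of `r` bits. -/
lemma odd_block (r : ℕ) : ∀ a b : ℕ, a.choose b % 2 = 1 →
    (a % 2 ^ r).choose (b % 2 ^ r) % 2 = 1 ∧ (a / 2 ^ r).choose (b / 2 ^ r) % 2 = 1 := by
  induction r with
  | zero =>
    intro a b h
    simp [Nat.mod_one, h]
  | succ r ih =>
    intro a b h
    have h1 := lucas_two a b
    rw [h] at h1
    have hlow : (a % 2).choose (b % 2) % 2 = 1 := by
      rcases Nat.mod_two_eq_zero_or_one ((a % 2).choose (b % 2)) with h0 | h0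
      · rw [Nat.mul_mod, h0] at h1
        simp at h1
      · exact h0
    have hhigh : (a / 2).choose (b / 2) % 2 = 1 := by
      rcases Nat.mod_two_eq_zero_or_one ((a / 2).choose (b / 2)) with h0 | h0
      · rw [Nat.mul_mod, h0] at h1
        simp at h1
      · exact h0
    obtain ⟨h2, h3⟩ := ih (a / 2) (b / 2) hhigh
    constructor
    · have e1 : (a % 2 ^ (r + 1)) % 2 = a % 2 := by
        rw [pow_succ, Nat.mod_mul_left_mod]
      have e2 : (b % 2 ^ (r + 1)) % 2 = b % 2 := by
        rw [pow_succ, Nat.mod_mul_left_mod]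
      have e3 : (a % 2 ^ (r + 1)) / 2 = (a / 2) % 2 ^ r := by
        rw [pow_succ, Nat.mod_mul_left_div_self]
      have e4 : (b % 2 ^ (r + 1)) / 2 = (b / 2) % 2 ^ r := by
        rw [pow_succ, Nat.mod_mul_left_div_self]
      rw [lucas_two, e1, e2, e3, e4, Nat.mul_mod, hlow, h2]
    · have e5 : a / 2 ^ (r + 1) = a / 2 / 2 ^ r := by
        rw [pow_succ, mul_comm, Nat.div_div_eq_div_mul]
      have e6 : b / 2 ^ (r + 1) = b / 2 / 2 ^ r := by
        rw [pow_succ, mul_comm, Nat.div_div_eq_div_mul]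
      rw [e5, e6]
      exact h3

/-- One descent step. If `C(a, 2^r B + (2^r - e))` is odd with `e ∈ {1,2}` then
`a = 2^r A₁ + (2^r - e')` with `1 ≤ e' ≤ e` and `C(A₁, B)` is odd. -/
lemma step (r : ℕ) (hr : 2 ≤ r) (a B e : ℕ) (he1 : 1 ≤ e) (he2 : e ≤ 2)
    (h : a.choose (2 ^ r * B + (2 ^ r - e)) % 2 = 1) :
    ∃ A e' : ℕ, 1 ≤ e' ∧ e' ≤ e ∧ a + e' = 2 ^ r * (A + 1) ∧ A.choose B % 2 = 1 := by
  have hp : 4 ≤ 2 ^ r := by
    calc 4 = 2 ^ 2 := by norm_num
      _ ≤ 2 ^ r := Nat.pow_le_pow_right (by norm_num) hr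
  obtain ⟨h1, h2⟩ := odd_block r _ _ h
  have hlt : 2 ^ r - e < 2 ^ r := by omega
  have em : (2 ^ r * B + (2 ^ r - e)) % 2 ^ r = 2 ^ r - e := by
    rw [Nat.mul_add_mod, Nat.mod_eq_of_lt hlt]
  have ed : (2 ^ r * B + (2 ^ r - e)) / 2 ^ r = B := by
    rw [Nat.mul_add_div (by omega), Nat.div_eq_of_lt hlt, add_zero]
  rw [em] at h1
  rw [ed] at h2
  have hge : 2 ^ r - e ≤ a % 2 ^ r := by
    by_contra hcon
    push Not at hcon
    rw [Nat.choose_eq_zero_of_lt hcon] at h1
    simp at h1
  have hlt2 : a % 2 ^ r < 2 ^ r := Nat.mod_lt _ (by omega)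
  refine ⟨a / 2 ^ r, 2 ^ r - a % 2 ^ r, by omega, by omega, ?_, h2⟩
  have := Nat.div_add_mod a (2 ^ r)
  rw [mul_add, mul_one]
  omega

/-- The main parity statement. -/
lemma even_aux (r : ℕ) (hr : 3 ≤ r) : ∀ i A e B : ℕ, 1 ≤ e → e ≤ 2 →
    B + 2 ^ i + e = 2 ^ r * (A + 1) → A.choose B % 2 ≠ 1 := by
  have hp : 8 ≤ 2 ^ r := by
    calc 8 = 2 ^ 3 := by norm_num
      _ ≤ 2 ^ r := Nat.pow_le_pow_right (by norm_num) hr
  intro i
  induction i using Nat.strong_induction_on with
  | _ i ih =>
    intro A e B he1 he2 hB hodd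
    by_cases hir : i < r
    · -- small case
      have hBA : B ≤ A := by
        by_contra hcon
        push Not at hcon
        rw [Nat.choose_eq_zero_of_lt hcon] at hodd
        simp at hodd
      obtain ⟨s, rfl⟩ : ∃ s, r = s + 1 := ⟨r - 1, by omega⟩
      have h2 : 2 ^ i ≤ 2 ^ s := Nat.pow_le_pow_right (by norm_num) (by omega)
      have h3 : 2 ^ (s + 1) = 2 * 2 ^ s := by rw [pow_succ, mul_comm]
      rw [h3] at hB hp
      nlinarith
    · push Not at hir
      obtain ⟨t, rfl⟩ : ∃ t, i = r + t := ⟨i - r, by omega⟩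
      have hpow : 2 ^ (r + t) = 2 ^ r * 2 ^ t := pow_add 2 r t
      rw [hpow] at hB
      have hAt : 2 ^ t ≤ A := by
        by_contra hcon
        push Not at hcon
        have : 2 ^ r * (A + 1) ≤ 2 ^ r * 2 ^ t := Nat.mul_le_mul_left _ hcon
        omega
      have hBeq : B = 2 ^ r * (A - 2 ^ t) + (2 ^ r - e) := by
        obtain ⟨D, rfl⟩ : ∃ D, A = 2 ^ t + D := ⟨A - 2 ^ t, by omega⟩
        rw [Nat.add_sub_cancel_left]
        have : 2 ^ r * (2 ^ t + D + 1) = 2 ^ r * 2 ^ t + 2 ^ r * D + 2 ^ r := by ring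
        rw [this] at hB
        omega
      rw [hBeq] at hodd
      obtain ⟨A1, e', h1, h2, h3, h4⟩ := step r (by omega) A (A - 2 ^ t) e he1 he2 hodd
      refine ih t (by omega) A1 e' (A - 2 ^ t) h1 (by omega) ?_ h4
      omega

theorem mem_K (r : ℕ) (hr : 3 ≤ r) : S ⊆ K (2 ^ r - 1) := by
  have hp : 8 ≤ 2 ^ r := by
    calc 8 = 2 ^ 3 := by norm_num
      _ ≤ 2 ^ r := Nat.pow_le_pow_right (by norm_num) hr
  rintro k ⟨m, q, hq, hprime, hq3, rfl⟩
  set M := 2 ^ m with hM
  refine ⟨by omega, ?_⟩
  intro n hn1 hn2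
  obtain ⟨c, hc⟩ : ∃ c, 2 ^ r = c + 1 := ⟨2 ^ r - 1, by omega⟩
  have hc' : 2 ^ r - 1 = c := by omega
  rw [hc'] at hn1 hn2 ⊢
  have hcpos : (0 : ℚ) < (c : ℚ) := by
    have : 0 < c := by omega
    exact_mod_cast this
  have hn1' : 2 * q ≤ (c + 1) * n := by
    rw [div_le_iff₀ (by positivity)] at hn1
    have : ((2 * q : ℕ) : ℚ) ≤ (((c + 1) * n : ℕ) : ℚ) := by
      push_cast at hn1 ⊢
      linarith
    exact_mod_cast this
  have hn2' : c * n ≤ 2 * q := by
    rw [le_div_iff₀ hcpos] at hn2
    have : ((c * n : ℕ) : ℚ) ≤ ((2 * q : ℕ) : ℚ) := by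
      push_cast at hn2 ⊢
      linarith
    exact_mod_cast this
  have hc7 : 7 ≤ c := by omega
  have hnpos : 0 < n := by
    rcases Nat.eq_zero_or_pos n with h | h
    · subst h; omega
    · exact h
  have hnq : n < q := by nlinarith
  -- coprimality with q
  have hcop : Nat.Coprime n q := by
    rw [Nat.coprime_comm, hprime.coprime_iff_not_dvd]
    intro hd
    exact absurd (Nat.le_of_dvd hnpos hd) (by omega)
  have hqodd : q % 2 = 1 := by
    rcases hprime.eq_two_or_odd with h | h
    · omega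
    · exact h
  have hMpos : 1 ≤ M := Nat.one_le_two_pow
  rcases Nat.even_or_odd' n with ⟨N, hN | hN⟩
  · -- n even
    subst hN
    have hNcop : Nat.Coprime N q := Nat.Coprime.coprime_dvd_left (Dvd.intro_left 2 rfl) hcop
    obtain ⟨J, hJ⟩ : ∃ J, q = c * N + J := by
      refine ⟨q - c * N, ?_⟩
      have : c * N ≤ q := by
        have : c * (2 * N) = 2 * (c * N) := by ring
        omega
      omega
    have hj : 2 * q - c * (2 * N) = 2 * J := by
      have : c * (2 * N) = 2 * (c * N) := by ring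
      omega
    rw [hj]
    have hJN : J ≤ N := by
      have : (c + 1) * (2 * N) = 2 * (c * N) + 2 * N := by ring
      omega
    have hNpos : 0 < N := by omega
    have hNJ : Nat.Coprime N J := by
      rw [hJ] at hNcop
      rwa [Nat.coprime_mul_right_add_right] at hNcop
    rcases Nat.eq_zero_or_pos J with hJ0 | hJpos
    · -- J = 0 forces q ∣ ... impossible: q = c N with both factors nontrivial
      exfalso
      subst hJ0
      have h1 : N = 1 := by simpa using hNJ
      subst h1
      -- q = c = 2^r - 1 and q = 2^M + 1, impossible mod 4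
      have hMge : 2 ≤ M := by
        by_contra hcon
        have : M = 1 := by omega
        rw [this] at hq
        omega
      obtain ⟨u, hu⟩ : ∃ u, M = u + 2 := ⟨M - 2, by omega⟩
      obtain ⟨v, hv⟩ : ∃ v, r = v + 2 := ⟨r - 2, by omega⟩
      rw [hu, pow_add] at hq
      rw [hv, pow_add] at hc
      omega
    -- identity: J * C(2N, 2J) = N * C(2N-1, 2J-1)
    have hident : J * (2 * N).choose (2 * J) = N * (2 * N - 1).choose (2 * J - 1) := by
      have h := Nat.add_one_mul_choose_eq (2 * N - 1) (2 * J - 1)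
      have e1 : 2 * N - 1 + 1 = 2 * N := by omega
      have e2 : 2 * J - 1 + 1 = 2 * J := by omega
      rw [e1, e2] at h
      have h' : 2 * (N * (2 * N - 1).choose (2 * J - 1)) = 2 * (J * (2 * N).choose (2 * J)) := by
        linarith
      omega
    have hdvdN : N ∣ (2 * N).choose (2 * J) := by
      have : N ∣ J * (2 * N).choose (2 * J) := by rw [hident]; exact Dvd.intro _ rfl
      exact hNJ.dvd_of_dvd_mul_left this
    rcases Nat.even_or_odd N with hNe | hNo
    · -- N even, J odd
      have hJo : J % 2 = 1 := by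
        obtain ⟨w, hw⟩ := hNe
        have : c * N = 2 * (c * w) := by rw [hw]; ring
        omega
      -- C(2N-1,2J-1) is even
      have heven : (2 * N - 1).choose (2 * J - 1) % 2 = 0 := by
        rcases Nat.mod_two_eq_zero_or_one ((2 * N - 1).choose (2 * J - 1)) with h0 | h0
        · exact h0
        · exfalso
          have h1 := (odd_block 1 _ _ h0).2
          have e1 : (2 * N - 1) / 2 ^ 1 = N - 1 := by omega
          have e2 : (2 * J - 1) / 2 ^ 1 = J - 1 := by omega
          rw [e1, e2] at h1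
          have hsym : (N - 1).choose (J - 1) = (N - 1).choose (N - J) := by
            have : N - J = (N - 1) - (J - 1) := by omega
            rw [this, Nat.choose_symm (by omega)]
          rw [hsym] at h1
          refine even_aux r hr M (N - 1) 1 (N - J) le_rfl (by norm_num) ?_ h1
          have e3 : N - 1 + 1 = N := by omega
          rw [e3, hc]
          have e4 : (c + 1) * N = c * N + N := by ring
          rw [e4]
          omega
      have hdvd : 2 * N ∣ J * (2 * N).choose (2 * J) := by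
        rw [hident]
        have := Nat.mul_dvd_mul_left N (Nat.dvd_of_mod_eq_zero heven)
        rwa [mul_comm N 2] at this
      have hcop2 : Nat.Coprime (2 * N) J := by
        refine Nat.Coprime.mul_left ?_ hNJ
        rw [Nat.coprime_comm]
        exact Nat.Coprime.symm (Nat.coprime_two_left.mpr (Nat.odd_iff.mpr hJo))
      exact hcop2.dvd_of_dvd_mul_left hdvd
    · -- N odd
      have h2 : (2 * N).choose (2 * J) % 2 = 0 := by
        rcases Nat.mod_two_eq_zero_or_one ((2 * N).choose (2 * J)) with h0 | h0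
        · exact h0
        · exfalso
          have h1 := (odd_block 1 _ _ h0).2
          have e1 : (2 * N) / 2 ^ 1 = N := by omega
          have e2 : (2 * J) / 2 ^ 1 = J := by omega
          rw [e1, e2] at h1
          rw [← Nat.choose_symm hJN] at h1
          -- N - J = 2^r N - 2^M - 1
          have hkey : (N - J) + 2 ^ M + 1 = 2 ^ r * N := by
            rw [hc]
            have e4 : (c + 1) * N = c * N + N := by ring
            rw [e4]
            omega
          by_cases hMr : M < r
          · obtain ⟨s, hs⟩ : ∃ s, r = s + 1 := ⟨r - 1, by omega⟩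
            have h2 : 2 ^ M ≤ 2 ^ s := Nat.pow_le_pow_right (by norm_num) (by omega)
            have h3 : 2 ^ r = 2 * 2 ^ s := by rw [hs, pow_succ, mul_comm]
            rw [h3] at hkey hp
            nlinarith
          · push Not at hMr
            obtain ⟨t, ht⟩ : ∃ t, M = r + t := ⟨M - r, by omega⟩
            have hpow : 2 ^ M = 2 ^ r * 2 ^ t := by rw [ht]; exact pow_add 2 r t
            rw [hpow] at hkey
            have hAt : 2 ^ t < N := by
              by_contra hcon
              push Not at hcon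
              have : 2 ^ r * N ≤ 2 ^ r * 2 ^ t := Nat.mul_le_mul_left _ hcon
              omega
            have hBeq : N - J = 2 ^ r * (N - 2 ^ t - 1) + (2 ^ r - 1) := by
              obtain ⟨D, hD⟩ : ∃ D, N = 2 ^ t + D + 1 := ⟨N - 2 ^ t - 1, by omega⟩
              have e5 : N - 2 ^ t - 1 = D := by omega
              rw [e5]
              have : 2 ^ r * N = 2 ^ r * 2 ^ t + 2 ^ r * D + 2 ^ r := by rw [hD]; ring
              rw [this] at hkey
              omega
            rw [hBeq] at h1
            obtain ⟨A1, e', g1, g2, g3, g4⟩ :=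
              step r (by omega) N (N - 2 ^ t - 1) 1 le_rfl (by norm_num) h1
            refine even_aux r hr t A1 2 (N - 2 ^ t - 1) (by norm_num) le_rfl ?_ g4
            omega
      refine Nat.Coprime.mul_dvd_of_dvd_of_dvd ?_ (Nat.dvd_of_mod_eq_zero h2) hdvdN
      exact Nat.coprime_two_left.mpr hNo
  · -- n odd
    have hle : c * n ≤ 2 * q := hn2'
    obtain ⟨j, hj⟩ : ∃ j, 2 * q = c * n + j := ⟨2 * q - c * n, by omega⟩
    have hj' : 2 * q - c * n = j := by omega
    rw [hj']
    have hodd : Nat.Coprime n 2 := by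
      rw [Nat.coprime_two_right, hN]
      exact ⟨N, rfl⟩
    have hc1 : Nat.Coprime n j := by
      have : Nat.Coprime n (2 * q) := Nat.Coprime.mul_right hodd hcop
      rw [hj, Nat.coprime_mul_right_add_right] at this
      exact this
    rcases Nat.eq_zero_or_pos j with h0 | hpos
    · subst h0
      have h1 : n = 1 := by simpa using hc1
      rw [h1]
      exact one_dvd _
    · have h := Nat.add_one_mul_choose_eq (n - 1) (j - 1)
      have e1 : n - 1 + 1 = n := by omega
      have e2 : j - 1 + 1 = j := by omega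
      rw [e1, e2] at h
      have : n ∣ n.choose j * j := by rw [← h]; exact Dvd.intro _ rfl
      exact hc1.dvd_of_dvd_mul_right this

theorem result : {c : ℕ | 2 ≤ c ∧ S ⊆ K c}.Infinite := by
  have hinj : Function.Injective (fun r : ℕ => 2 ^ (r + 3) - 1) := by
    intro a b hab
    simp only at hab
    have ha : 1 ≤ 2 ^ (a + 3) := Nat.one_le_two_pow
    have hb : 1 ≤ 2 ^ (b + 3) := Nat.one_le_two_pow
    have : 2 ^ (a + 3) = 2 ^ (b + 3) := by omega
    have := Nat.pow_right_injective (le_refl 2) this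
    omega
  refine (Set.infinite_range_of_injective hinj).mono ?_
  rintro _ ⟨r, rfl⟩
  refine ⟨?_, mem_K (r + 3) (by omega)⟩
  have : 2 ^ 3 ≤ 2 ^ (r + 3) := Nat.pow_le_pow_right (by norm_num) (by omega)
  show 2 ≤ 2 ^ (r + 3) - 1
  omega

end Pool.Agent.Results.MP_82795f_nt.InfinitelyManyC
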