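import Mathlib

/-! # Q2 of MP_82795f_nt

`K c` is the set of positive integers `k` such that `n ∣ C(n, k - c n)` for every integer `n`
with `k / (c + 1) ≤ n ≤ k / c`; `S` is the set of numbers `2 q` with `q > 3` a Fermat prime.
We show that it is false that `S ⊆ K c` for all positive multiples `c` of `3`:
`514 = 2 * 257` is not in `K 12`, because `42` does not divide `C(42, 10)`. -/

namespace Pool.Agent.Results.MP_82795f_nt.MultiplesOfThree

/-- The set `K_c`: positive integers `k` such that `n` divides the binomial coefficient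
`C(n, k - c n)` for every integer `n` with `k / (c + 1) ≤ n ≤ k / c`. -/
def K (c : ℕ) : Set ℕ :=
  {k | 0 < k ∧ ∀ n : ℕ, (k : ℚ) / ((c : ℚ) + 1) ≤ (n : ℚ) → (n : ℚ) ≤ (k : ℚ) / (c : ℚ) →
    n ∣ n.choose (k - c * n)}

/-- The set `S` of all `2 q` with `q > 3` a Fermat prime, i.e. a prime `q = 2 ^ (2 ^ m) + 1`. -/
def S : Set ℕ :=
  {k | ∃ m q : ℕ, q = 2 ^ (2 ^ m) + 1 ∧ q.Prime ∧ 3 < q ∧ k = 2 * q}

theorem result : ¬ ∀ c : ℕ, 0 < c → 3 ∣ c → S ⊆ K c := by
  intro h
  have hS : (514 : ℕ) ∈ S := by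
    refine ⟨3, 257, by norm_num, by norm_num, by norm_num, by norm_num⟩
  have hK := h 12 (by norm_num) (by norm_num) hS
  obtain ⟨-, hK⟩ := hK
  have h1 := hK 42 (by norm_num) (by norm_num)
  revert h1
  decide +kernel

end Pool.Agent.Results.MP_82795f_nt.MultiplesOfThree
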